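import Pool.Agent.Run7.h35.EX.Stm

/-!
# Project EX (helper35, MP_8bfc08_an), piece STEP (helper99)
-/

set_option autoImplicit false
open scoped BigOperators

namespace Run7.h99.EX

open Run7.h35.EX

noncomputable section

theorem av_mono {T : Type} [Fintype T] {f g : T → ℝ} (h : ∀ t, f t ≤ g t) : av f ≤ av g := by
  unfold av
  apply div_le_div_of_nonneg_right (Finset.sum_le_sum fun t _ => h t)
  positivity

theorem av_nonneg {T : Type} [Fintype T] {f : T → ℝ} (h : ∀ t, 0 ≤ f t) : 0 ≤ av f := by
  unfold av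
  apply div_nonneg (Finset.sum_nonneg fun t _ => h t)
  positivity

theorem av_add {T : Type} [Fintype T] (f g : T → ℝ) : av (fun t => f t + g t) = av f + av g := by
  unfold av
  rw [Finset.sum_add_distrib, add_div]

theorem av_const {T : Type} [Fintype T] [Nonempty T] (c : ℝ) : av (fun _ : T => c) = c := by
  unfold av
  have h : (Fintype.card T : ℝ) ≠ 0 := by
    exact_mod_cast Fintype.card_ne_zero
  rw [Finset.sum_const, Finset.card_univ, nsmul_eq_mul]
  field_simp

theorem av_comm {T T' : Type} [Fintype T] [Fintype T'] (f : T → T' → ℝ) :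
    (av fun t => av fun t' => f t t') = av fun t' => av fun t => f t t' := by
  unfold av
  rw [← Finset.sum_div, ← Finset.sum_div, Finset.sum_comm, div_div, div_div, mul_comm]

theorem av_trans {V : Type} [Fintype V] [AddCommGroup V] (f : V → ℝ) (v : V) :
    av (fun x => f (x + v)) = av f := by
  unfold av
  congr 1
  exact Equiv.sum_comp (Equiv.addRight v) f

theorem av3_mono {T T' T'' : Type} [Fintype T] [Fintype T'] [Fintype T'']
    {f g : T → T' → T'' → ℝ} (h : ∀ x y z, f x y z ≤ g x y z) :
    (av fun x => av fun y => av fun z => f x y z) ≤ av fun x => av fun y => av fun z => g x y z :=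
  av_mono fun x => av_mono fun y => av_mono fun z => h x y z

theorem av3_add {T T' T'' : Type} [Fintype T] [Fintype T'] [Fintype T'']
    (f g : T → T' → T'' → ℝ) :
    (av fun x => av fun y => av fun z => (f x y z + g x y z)) =
      (av fun x => av fun y => av fun z => f x y z) +
        av fun x => av fun y => av fun z => g x y z := by
  rw [← av_add]
  congr 1
  funext x
  rw [← av_add]
  congr 1
  funext y
  rw [← av_add]

section
variable {V ι : Type} [Fintype V] [AddCommGroup V] [Fintype ι] [Nonempty ι]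

theorem nrm1_mono {a b : V → ι → ℝ} (h : ∀ x i, |a x i| ≤ |b x i|) : nrm1 a ≤ nrm1 b :=
  av_mono fun x => av_mono fun i => h x i

theorem nrm1_add3 {u a b c : V → ι → ℝ} (h : ∀ x i, |u x i| ≤ |a x i| + |b x i| + |c x i|) :
    nrm1 u ≤ nrm1 a + nrm1 b + nrm1 c := by
  unfold nrm1
  rw [← av_add, ← av_add]
  refine av_mono fun x => ?_
  rw [← av_add, ← av_add]
  exact av_mono fun i => h x i

theorem nrm2_add3 (s : ι → V) {u a b c : V → ι → ℝ}
    (h : ∀ x i j, |d1 s u x i j| ≤ |d1 s a x i j| + |d1 s b x i j| + |d1 s c x i j|) :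
    nrm2 s u ≤ nrm2 s a + nrm2 s b + nrm2 s c := by
  unfold nrm2
  rw [← av3_add, ← av3_add]
  exact av3_mono h

theorem nrm2_le (s : ι → V) (m : V → ι → ℝ) : nrm2 s m ≤ 4 * nrm1 m := by
  have h1 : nrm2 s m ≤ av fun x => av fun i => av fun j =>
      ((|m x i| + |m (x + s i) j|) + |m x j|) + |m (x + s j) i| := by
    unfold nrm2
    refine av3_mono fun x i j => ?_
    unfold d1
    have e1 : m x i + m (x + s i) j - m x j - m (x + s j) i =
      ((m x i + m (x + s i) j) + (- m x j)) + (- m (x + s j) i) := by ring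
    rw [e1]
    refine (abs_add_le _ _).trans ?_
    rw [abs_neg]
    refine add_le_add ((abs_add_le _ _).trans ?_) le_rfl
    rw [abs_neg]
    exact add_le_add (abs_add_le _ _) le_rfl
  rw [av3_add (fun x i j => (|m x i| + |m (x + s i) j|) + |m x j|) (fun x i j => |m (x + s j) i|),
    av3_add (fun x i j => |m x i| + |m (x + s i) j|) (fun x i j => |m x j|),
    av3_add (fun x i j => |m x i|) (fun x i j => |m (x + s i) j|)] at h1
  have t1 : (av fun x => av fun i => av fun _j : ι => |m x i|) = nrm1 m := by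
    unfold nrm1
    congr 1
    funext x
    congr 1
    funext i
    rw [av_const]
  have t3 : (av fun x => av fun _i : ι => av fun j : ι => |m x j|) = nrm1 m := by
    unfold nrm1
    congr 1
    funext x
    rw [av_const]
  have t2 : (av fun x => av fun i : ι => av fun j : ι => |m (x + s i) j|) = nrm1 m := by
    rw [av_comm]
    have : ∀ i : ι, (av fun x => av fun j : ι => |m (x + s i) j|) = nrm1 m := by
      intro i
      exact av_trans (fun x => av fun j : ι => |m x j|) (s i)
    simp only [this]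
    rw [av_const]
  have t4 : (av fun x => av fun i : ι => av fun j : ι => |m (x + s j) i|) = nrm1 m := by
    rw [← t2]
    congr 1
    funext x
    rw [av_comm]
  rw [t1, t2, t3, t4] at h1
  linarith

theorem Mi_nonneg (a : V → ι → ℝ) (i : ι) : 0 ≤ Mi a i := av_nonneg fun _ => abs_nonneg _

theorem av_Mi (a : V → ι → ℝ) : av (Mi a) = nrm1 a := by
  unfold nrm1
  rw [av_comm]
  rfl

theorem low_anti (s : ι → V) {a : V → ι → ℝ} (h : Anti s a) (L : ℝ) : Anti s (low L a) := by
  intro x i
  unfold low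
  rw [h x i, abs_neg]
  split_ifs <;> simp

theorem high_anti (s : ι → V) {a : V → ι → ℝ} (h : Anti s a) (L : ℝ) : Anti s (high L a) := by
  intro x i
  unfold high
  rw [h x i, abs_neg]
  split_ifs <;> simp

theorem low_le (a : V → ι → ℝ) {L : ℝ} (hL : 0 ≤ L) (x : V) (i : ι) :
    |low L a x i| ≤ L * Mi a i := by
  unfold low
  split_ifs with h
  · exact h
  · rw [abs_zero]
    exact mul_nonneg hL (Mi_nonneg a i)

theorem high_le (a : V → ι → ℝ) (L : ℝ) (x : V) (i : ι) : |high L a x i| ≤ |a x i| := by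
  unfold high
  split_ifs with h
  · exact le_rfl
  · rw [abs_zero]
    exact abs_nonneg _

end

theorem t_STEP (hPIG : S_PIG) (hINT : S_INT) (hREG : S_REG) (hA1 : S_A1) (hA2 : S_A2) (hB : S_B)
    (hCROSS : S_CROSS) (hSING : S_SING) : S_STEP := by
  refine ⟨1 / (10 ^ 7) ^ 201, by positivity, ?_, 1 / 100, by norm_num, ?_⟩
  · rw [div_le_div_iff₀ (by positivity) (by norm_num)]
    have : (1 : ℝ) ≤ (10 ^ 7) ^ 200 := one_le_pow₀ (by norm_num)
    rw [pow_succ]
    nlinarith
  intro V ι _ _ _ _ s hgap a hanti ha hδ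
  set η : ℝ := 1 / (10 ^ 7) ^ 201 with hη
  have hη0 : 0 ≤ η := by positivity
  have hη1 : η ≤ 1 / 10 ^ 7 := by
    rw [hη]
    apply one_div_le_one_div_of_le (by positivity)
    calc (10 ^ 7 : ℝ) = (10 ^ 7) ^ 1 := by ring
      _ ≤ (10 ^ 7) ^ 201 := pow_le_pow_right₀ (by norm_num) (by norm_num)
  obtain ⟨q, hq, hmid⟩ := hPIG V ι a 200 (10 ^ 7) (by norm_num) (by norm_num) ha
  set L : ℝ := (10 ^ 7) ^ q with hL
  set L' : ℝ := (10 ^ 7) ^ (q + 1) with hL'
  have hLpos : 0 < L := by positivity
  have hL1 : 1 ≤ L := one_le_pow₀ (by norm_num)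
  have hL'eq : L' = L * 10 ^ 7 := by rw [hL', pow_succ]
  have hLL' : L ≤ L' := by rw [hL'eq]; nlinarith
  have hRL' : (10 ^ 7 : ℝ) ≤ L' := by rw [hL'eq]; nlinarith
  have hratio : L / L' = 1 / 10 ^ 7 := by
    rw [hL'eq]
    field_simp
  have hηL : η * L ≤ 1 / 10 ^ 7 := by
    have h1 : L ≤ (10 ^ 7) ^ 200 := pow_le_pow_right₀ (by norm_num) (by omega)
    calc η * L ≤ η * (10 ^ 7) ^ 200 := mul_le_mul_of_nonneg_left h1 hη0
      _ = 1 / 10 ^ 7 := by
        rw [hη, pow_succ]
        field_simp
  have hmid' : nrm1 (mid L L' a) ≤ 1 / 200 := by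
    have := hmid
    norm_num at this ⊢
    exact this
  -- high
  have hhigh2 : nrm2 s (high L' a) ≤ 1 / 100 + 4 * (1 / 200) + 16 * (1 / 10 ^ 7) := by
    have := hINT V ι s a L L' hLpos hLL' ha
    rw [hratio] at this
    linarith
  have hhigh1 : nrm1 (high L' a) ≤ 1 := (nrm1_mono fun x i => high_le a L' x i).trans ha
  have hhighanti : Anti s (high L' a) := high_anti s hanti L'
  have hlowanti : Anti s (low L a) := low_anti s hanti L
  have hsupp : ∀ x i, high L' a x i ≠ 0 → (10 ^ 7 : ℝ) * Mi (high L' a) i ≤ |high L' a x i| := by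
    intro x i hne
    have h1 : Mi (high L' a) i ≤ Mi a i := av_mono fun x => high_le a L' x i
    have h2 : L' * Mi a i < |a x i| := by
      by_contra hcon
      apply hne
      unfold high
      rw [if_neg hcon]
    have h3 : high L' a x i = a x i := by
      unfold high
      rw [if_pos h2]
    rw [h3]
    have h4 : (10 ^ 7 : ℝ) * Mi (high L' a) i ≤ L' * Mi a i := by
      apply mul_le_mul hRL' h1 (Mi_nonneg _ _) (by positivity)
    linarith
  have hε : (0 : ℝ) ≤ 1 / 10 ^ 7 + η := by positivity
  have kA1 := hA1 V ι s η (10 ^ 7) hη0 hgap (by norm_num) (high L' a) hhigh1 hsupp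
  have kA2 := hA2 V ι s η (10 ^ 7) hη0 hgap (by norm_num) (high L' a) hhigh1 hsupp
  have kB := hB V ι 100 (by norm_num) (high L' a) hhigh1
  have kC := hCROSS V ι s (1 / 10 ^ 7 + η) 100 hε (by norm_num) (high L' a) hhighanti kA1 kA2 kB
  obtain ⟨f, hf⟩ := hSING V ι s _ 100 (high L' a) kC
  -- low
  have hdec : ∀ x i, a x i = low L a x i + mid L L' a x i + high L' a x i := by
    intro x i
    unfold mid
    ring
  have hmid2 : nrm2 s (mid L L' a) ≤ 4 * (1 / 200) := by
    have := nrm2_le s (mid L L' a)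
    linarith
  have hlow2 : nrm2 s (low L a) ≤ nrm2 s a + nrm2 s (mid L L' a) + nrm2 s (high L' a) := by
    apply nrm2_add3
    intro x i j
    have e : d1 s (low L a) x i j =
        (d1 s a x i j + -(d1 s (mid L L' a) x i j)) + -(d1 s (high L' a) x i j) := by
      unfold d1
      rw [hdec x i, hdec (x + s i) j, hdec x j, hdec (x + s j) i]
      ring
    rw [e]
    refine (abs_add_le _ _).trans ?_
    rw [abs_neg]
    refine add_le_add ((abs_add_le _ _).trans ?_) le_rfl
    rw [abs_neg]
  obtain ⟨g, hg⟩ := hREG V ι s η hη0 hgap (low L a) (Mi a) L hLpos.le (fun i => Mi_nonneg a i)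
    (by rw [av_Mi]; exact ha) hlowanti (fun x i => low_le a hLpos.le x i)
  refine ⟨fun x => g x + f x, ?_⟩
  have htot : nrm1 (fun x i => a x i - d0 s (fun x => g x + f x) x i) ≤
      nrm1 (fun x i => low L a x i - d0 s g x i) + nrm1 (mid L L' a) +
        nrm1 (fun x i => high L' a x i - d0 s f x i) := by
    apply nrm1_add3
    intro x i
    have e : a x i - d0 s (fun x => g x + f x) x i =
        ((low L a x i - d0 s g x i) + mid L L' a x i) + (high L' a x i - d0 s f x i) := by
      unfold d0
      rw [hdec x i]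
      ring
    rw [e]
    exact (abs_add_le _ _).trans (add_le_add (abs_add_le _ _) le_rfl)
  have hη2 : η ≤ 1 / 10000000 := by
    refine hη1.trans (le_of_eq ?_)
    norm_num
  have hηL2 : η * L ≤ 1 / 10000000 := by
    refine hηL.trans (le_of_eq ?_)
    norm_num
  norm_num at hf hhigh2
  clear_value η L L'
  linarith

end

end Run7.h99.EX
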